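import Pool.Agent.Helper37.SN.Stmts

/-!
# MP_aa31b4_an: module MAIN
-/

namespace Pool.Agent.Helper37.SN

open MeasureTheory Finset
open scoped ENNReal Classical

theorem MAIN_mc_neg {d : ℕ} (f : TT d → ℝ) (k : Fin d → ℤ) :
    mc (fun x => -f x) k = -mc f k := by
  unfold mc
  rw [← integral_neg]
  refine integral_congr_ae (Filter.Eventually.of_forall fun x => ?_)
  simp

theorem MAIN_neg {d : ℕ} {r p : ℝ} {f : TT d → ℝ} (hf : f ∈ MixW d r p) :
    (fun x => -f x) ∈ MixW d r p := by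
  obtain ⟨hc, φ, hφ, hn, hk⟩ := hf
  refine ⟨hc.neg, fun x => -φ x, hφ.neg, ?_, fun k => ?_⟩
  · have : eLpNorm (fun x => -φ x) (ENNReal.ofReal p) (haar d) =
        eLpNorm φ (ENNReal.ofReal p) (haar d) := eLpNorm_neg φ (ENNReal.ofReal p) (haar d)
    rw [this]
    exact hn
  · rw [MAIN_mc_neg, MAIN_mc_neg, hk k, mul_neg]

theorem MAIN_part1 (hFOOL : ST_FOOL) (d : ℕ) (r p q : ℝ) (hd : 2 ≤ d) (hp1 : 1 < p) (hp2 : p < 2)
    (hq : 2 < q) (hr : 1 / p < r) (A : ℝ) : ∃ m₀ : ℕ, ∀ m : ℕ, m₀ ≤ m →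
    ∀ (x : Fin m → TT d) (Ψ : (Fin m → ℝ) → TT d → ℝ),
    (∀ v, AEStronglyMeasurable (Ψ v) (haar d)) →
    ∃ f ∈ MixW d r p, ENNReal.ofReal (A * (m : ℝ) ^ (-(r - 1 / p + 1 / q))) ≤
      eLpNorm (fun t => f t - Ψ (fun i => f (x i)) t) (ENNReal.ofReal q) (haar d) := by
  obtain ⟨e, rfl⟩ : ∃ e, d = e + 2 := ⟨d - 2, by omega⟩
  obtain ⟨m₀, hm₀⟩ := hFOOL r p q hp1 hp2 hq hr e A
  refine ⟨m₀, fun m hm x Ψ hΨ => ?_⟩
  obtain ⟨f, hf, hfx, hfn⟩ := hm₀ m hm x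
  have hfm : AEStronglyMeasurable f (haar (e + 2)) := hf.1.aestronglyMeasurable
  by_contra hcon
  push Not at hcon
  have h1 := hcon f hf
  have h2 := hcon (fun t => -f t) (MAIN_neg hf)
  have e1 : (fun i => f (x i)) = fun _ => (0 : ℝ) := funext fun i => hfx i
  have e2 : (fun i => -f (x i)) = fun _ => (0 : ℝ) := funext fun i => by rw [hfx i, neg_zero]
  rw [e1] at h1
  rw [e2] at h2
  set ψ := Ψ (fun _ => 0) with hψ
  have hψm : AEStronglyMeasurable ψ (haar (e + 2)) := hΨ _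
  have hq1 : 1 ≤ ENNReal.ofReal q := by
    rw [← ENNReal.ofReal_one]
    exact ENNReal.ofReal_le_ofReal (by linarith)
  have h3 := eLpNorm_sub_le (μ := haar (e + 2)) (f := fun t => f t - ψ t)
    (g := fun t => -f t - ψ t) (hfm.sub hψm) (hfm.neg.sub hψm) hq1
  have h4 : (fun t => f t - ψ t) - (fun t => -f t - ψ t) = (2 : ℝ) • f := by
    funext t
    simp only [Pi.sub_apply, Pi.smul_apply, smul_eq_mul]
    ring
  rw [h4, eLpNorm_const_smul] at h3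
  have h5 : ‖(2 : ℝ)‖ₑ = 2 := by
    rw [Real.enorm_eq_ofReal (by norm_num : (0 : ℝ) ≤ 2)]
    norm_num
  rw [h5] at h3
  have h6 := ENNReal.add_lt_add h1 h2
  rw [← two_mul] at h6
  exact absurd (lt_of_le_of_lt ((mul_le_mul_right hfn 2).trans h3) h6) (lt_irrefl _)

theorem st_MAIN (hFOOL : ST_FOOL) : ST_MAIN := by
  intro d r p q hd hp1 hp2 hq hr
  refine ⟨MAIN_part1 hFOOL d r p q hd hp1 hp2 hq hr, ?_⟩
  refine ENNReal.tendsto_nhds_top fun n => ?_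
  obtain ⟨m₀, hm₀⟩ := MAIN_part1 hFOOL d r p q hd hp1 hp2 hq hr (n + 1)
  filter_upwards [Filter.eventually_ge_atTop (max m₀ 1)] with m hm
  have hmm : m₀ ≤ m := (le_max_left _ _).trans hm
  have hm1 : 1 ≤ m := (le_max_right _ _).trans hm
  have hmpos : (0 : ℝ) < m := by exact_mod_cast hm1
  set α : ℝ := r - 1 / p + 1 / q with hα
  have h1 : ENNReal.ofReal ((n + 1) * (m : ℝ) ^ (-α)) ≤ samp d r p q m := by
    refine le_iInf fun x => le_iInf fun ψ => ?_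
    obtain ⟨f, hf, hle⟩ := hm₀ m hmm x (fun v t => ∑ i, v i * ψ i t) (fun v =>
      Continuous.aestronglyMeasurable
        (continuous_finsetSum _ fun i _ => continuous_const.mul (ψ i).continuous))
    exact le_iSup₂_of_le f hf hle
  have h2 : ENNReal.ofReal ((m : ℝ) ^ α) * ENNReal.ofReal ((n + 1) * (m : ℝ) ^ (-α)) =
      ENNReal.ofReal (n + 1) := by
    rw [← ENNReal.ofReal_mul (Real.rpow_nonneg hmpos.le _)]
    congr 1
    rw [Real.rpow_neg hmpos.le]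
    have : (m : ℝ) ^ α ≠ 0 := (Real.rpow_pos_of_pos hmpos α).ne'
    field_simp
  calc (n : ℝ≥0∞) = ENNReal.ofReal n := by simp
    _ < ENNReal.ofReal (n + 1) := by
        rw [ENNReal.ofReal_lt_ofReal_iff (by positivity)]
        linarith
    _ = ENNReal.ofReal ((m : ℝ) ^ α) * ENNReal.ofReal ((n + 1) * (m : ℝ) ^ (-α)) := h2.symm
    _ ≤ _ := mul_le_mul_right h1 _

end Pool.Agent.Helper37.SN
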